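import Mathlib

open MeasureTheory Set

namespace Pool.Agent.Results.MP_ac8703_an.No

/-- Points of `ℝ³`. -/
abbrev E := Fin 3 → ℝ

/-- The squared Euclidean norm. -/
def s (x : E) : ℝ := ∑ i, x i ^ 2

/-- The open Euclidean unit ball. -/
def Ω : Set E := {x | s x < 1}

/-- Partial derivatives, the Laplacian and the squared gradient. -/
noncomputable def pd (i : Fin 3) (f : E → ℝ) (x : E) : ℝ := fderiv ℝ f x (Pi.single i 1)
noncomputable def lap (f : E → ℝ) (x : E) : ℝ := ∑ i, pd i (pd i f) x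
noncomputable def gsq (f : E → ℝ) (x : E) : ℝ := ∑ i, pd i f x ^ 2

/-- A classical solution of `(P_λ)`: smooth, zero on the unit sphere, and solving
`-Δu = λ c u + μ |∇u|² + h` at every point of the ball. -/
def Sol (c μ h : E → ℝ) (lam : ℝ) (u : E → ℝ) : Prop :=
  ContDiff ℝ 2 u ∧ (∀ x, s x = 1 → u x = 0) ∧
    ∀ x ∈ Ω, -lap u x = lam * c x * u x + μ x * gsq u x + h x

/-- `γ₁ ≥ t`: the Rayleigh quotient of `-Δφ = γ c φ` is at least `t` on test functions. -/
def FirstEigGE (c : E → ℝ) (t : ℝ) : Prop :=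
  ∀ φ : E → ℝ, ContDiff ℝ (⊤ : ℕ∞) φ → HasCompactSupport φ → tsupport φ ⊆ Ω →
    t * ∫ x, c x * φ x ^ 2 ≤ ∫ x, gsq φ x

lemma s_nonneg (x : E) : 0 ≤ s x := Finset.sum_nonneg fun _ _ => sq_nonneg _

lemma s_smooth {n : WithTop ℕ∞} : ContDiff ℝ n s := by unfold s; fun_prop

lemma hasF_s (x : E) : HasFDerivAt s
    (∑ i, (2 * x i) • (ContinuousLinearMap.proj i : E →L[ℝ] ℝ)) x := by
  refine HasFDerivAt.fun_sum fun i _ => ?_
  simpa using (hasFDerivAt_apply (𝕜 := ℝ) i x).pow 2

lemma pd_comp {F : ℝ → ℝ} {F' : ℝ} {x : E} (h : HasDerivAt F F' (s x)) (i : Fin 3) :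
    pd i (fun y => F (s y)) x = F' * (2 * x i) := by
  have := (h.comp_hasFDerivAt x (hasF_s x)).fderiv
  rw [pd, show (fun y => F (s y)) = F ∘ s from rfl, this]
  simp [Pi.single_apply]

lemma pd_mul {F : ℝ → ℝ} {F' : ℝ} {x : E} (h : HasDerivAt F F' (s x)) (i : Fin 3) :
    pd i (fun y => F (s y) * y i) x = F' * (2 * x i) * x i + F (s x) := by
  have := ((h.comp_hasFDerivAt x (hasF_s x)).mul (hasFDerivAt_apply (𝕜 := ℝ) i x)).fderiv
  rw [pd, show (fun y => F (s y) * y i) = (F ∘ s) * fun y => y i from rfl, this]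
  simp [Pi.single_apply]
  ring

lemma pd_lin (a : ℝ) (i : Fin 3) : pd i (fun y => a * (1 - s y)) = fun y => (-2 * a) * y i := by
  funext x
  rw [pd_comp (F := fun t => a * (1 - t)) (((hasDerivAt_id _).const_sub 1).const_mul a)]
  ring

lemma lap_lin (a : ℝ) (x : E) : lap (fun y => a * (1 - s y)) x = -6 * a := by
  simp only [lap, pd_lin]
  have : ∀ i, pd i (fun y : E => -2 * a * y i) x = -2 * a := fun i => by
    simpa using pd_mul (F := fun _ => -2 * a) (hasDerivAt_const (s x) _) i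
  simp only [this]; simp; ring

lemma gsq_lin (a : ℝ) (x : E) : gsq (fun y => a * (1 - s y)) x = 4 * a ^ 2 * s x := by
  simp only [gsq, pd_lin]
  rw [s, Finset.mul_sum]
  exact Finset.sum_congr rfl fun i _ => by ring

noncomputable def c (x : E) : ℝ := 18 * max (1 - 100 * s x) 0 / (1 - min (s x) (1 / 100))
noncomputable def μ (x : E) : ℝ := 3 / (2 * max (s x) (1 / 100))
noncomputable def h (x : E) : ℝ := 12 - 16 * s x * μ x

lemma cont_s : Continuous s := (s_smooth (n := 0)).continuous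

lemma cont_c : Continuous c := by
  have := cont_s
  refine Continuous.div (by fun_prop) (by fun_prop) fun x => ?_
  linarith [min_le_right (s x) (1 / 100)]

lemma cont_μ : Continuous μ := by
  have := cont_s
  refine Continuous.div (by fun_prop) (by fun_prop) fun x => ?_
  linarith [le_max_right (s x) (1 / 100)]

lemma c_nonneg (x : E) : 0 ≤ c x :=
  div_nonneg (by positivity) (by linarith [min_le_right (s x) (1 / 100)])

lemma c_bound (x : E) : 2 * c x ≤ 3 / 100 * ((s x + 1 / 100)⁻¹) ^ 2 := by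
  have h0 := s_nonneg x
  rcases le_total (s x) (1 / 100) with h | h
  · have h1 : c x ≤ 19 := by
      rw [c, min_eq_left h, div_le_iff₀ (by linarith), max_eq_left (by linarith)]; linarith
    have h2 : 50 ≤ (s x + 1 / 100)⁻¹ := by
      rw [le_inv_comm₀ (by norm_num) (by linarith)]; linarith
    nlinarith
  · rw [c, max_eq_right (by linarith)]; simp; positivity

lemma eig : FirstEigGE c 2 := by
  intro φ hφ hK _
  have hs := cont_s
  have hd : Differentiable ℝ φ := hφ.differentiable (by simp)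
  have hc : Continuous φ := hd.continuous
  have hp : ∀ i, Continuous (pd i φ) := fun i =>
    (hφ.continuous_fderiv (by simp)).clm_apply continuous_const
  have hne : ∀ x, s x + 1 / 100 ≠ 0 := fun x => by linarith [s_nonneg x]
  have hw : Continuous fun x => (s x + 1 / 100)⁻¹ := (hs.add continuous_const).inv₀ hne
  have hF : ∀ x, HasDerivAt (fun t : ℝ => (t + 1 / 100)⁻¹) (-((s x + 1 / 100)⁻¹) ^ 2) (s x) :=
    fun x => by
      have h1 : HasDerivAt (fun t : ℝ => t + 1 / 100) 1 (s x) := (hasDerivAt_id _).add_const _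
      refine (h1.inv (hne x)).congr_deriv ?_
      rw [inv_pow, neg_div, one_div]
  have hK2 : HasCompactSupport fun x => φ x * φ x := hK.mul_right
  have hKp : ∀ i, HasCompactSupport (pd i φ) := fun i => hK.fderiv_apply ℝ _
  have e2 : ∀ i x, fderiv ℝ (fun x => φ x * φ x) x (Pi.single i 1) = 2 * φ x * pd i φ x :=
    fun i x => by
      rw [fderiv_fun_mul (hd x) (hd x)]; simp [pd]; ring
  have ibp : ∀ i, ∫ x, φ x * φ x * (-((s x + 1 / 100)⁻¹) ^ 2 * (2 * x i) * x i + (s x + 1 / 100)⁻¹)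
      = -∫ x, 2 * φ x * pd i φ x * ((s x + 1 / 100)⁻¹ * x i) := fun i => by
    have := integral_mul_fderiv_eq_neg_fderiv_mul_of_integrable (μ := volume)
      (f := fun x => φ x * φ x) (g := fun x : E => (s x + 1 / 100)⁻¹ * x i) (v := Pi.single i 1)
      ?_ ?_ ?_ (fun x _ => (hd x).mul (hd x)) (fun x _ =>
        ((hF x).comp_hasFDerivAt x (hasF_s x)).differentiableAt.mul (differentiableAt_apply i x))
    · simp only [e2] at this
      rw [← this]
      congr 1; funext x
      rw [← pd_mul (hF x) i, pd]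
    · simp only [e2]
      exact Continuous.integrable_of_hasCompactSupport (by have := hp i; fun_prop)
        (hKp i).mul_left.mul_right
    · have : (fun x : E => φ x * φ x * fderiv ℝ (fun x : E => (s x + 1 / 100)⁻¹ * x i) x
          (Pi.single i 1)) = fun x => φ x * φ x *
          (-((s x + 1 / 100)⁻¹) ^ 2 * (2 * x i) * x i + (s x + 1 / 100)⁻¹) := by
        funext x; rw [← pd_mul (hF x) i, pd]
      rw [this]
      exact Continuous.integrable_of_hasCompactSupport (by fun_prop) hK2.mul_right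
    · exact Continuous.integrable_of_hasCompactSupport (by fun_prop) hK2.mul_right
  have i1 : ∀ i, Integrable fun x : E =>
      φ x * φ x * (-((s x + 1 / 100)⁻¹) ^ 2 * (2 * x i) * x i + (s x + 1 / 100)⁻¹) := fun i =>
    Continuous.integrable_of_hasCompactSupport (by fun_prop) hK2.mul_right
  have i2 : ∀ i, Integrable fun x : E => 2 * φ x * pd i φ x * ((s x + 1 / 100)⁻¹ * x i) :=
    fun i => Continuous.integrable_of_hasCompactSupport (by have := hp i; fun_prop)
      (hKp i).mul_left.mul_right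
  have i3 : ∀ i, Integrable fun x : E => pd i φ x ^ 2 := fun i => by
    simp only [sq]
    exact ((hp i).mul (hp i)).integrable_of_hasCompactSupport (hKp i).mul_left
  have i4 : ∀ i, Integrable fun x : E => φ x * φ x * (-((s x + 1 / 100)⁻¹) ^ 2 * (2 * x i) * x i
      + (s x + 1 / 100)⁻¹) + 2 * φ x * pd i φ x * ((s x + 1 / 100)⁻¹ * x i) :=
    fun i => (i1 i).add (i2 i)
  have i5 : Integrable (gsq φ) := integrable_finsetSum _ fun i _ => i3 i
  have z : ∫ x : E, ∑ i, (φ x * φ x * (-((s x + 1 / 100)⁻¹) ^ 2 * (2 * x i) * x i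
      + (s x + 1 / 100)⁻¹) + 2 * φ x * pd i φ x * ((s x + 1 / 100)⁻¹ * x i)) = 0 := by
    rw [integral_finsetSum _ fun i _ => i4 i]
    exact Finset.sum_eq_zero fun i _ => by rw [integral_add (i1 i) (i2 i), ibp i]; ring
  rw [← integral_const_mul, ← add_zero (∫ x, gsq φ x), ← z, ← integral_add
    i5 (integrable_finsetSum _ fun i _ => i4 i)]
  refine integral_mono ?_ (i5.add (integrable_finsetSum _ fun i _ => i4 i)) fun x => ?_
  · have := cont_c
    simp only [sq]
    exact Continuous.integrable_of_hasCompactSupport (by fun_prop) hK2.mul_left.mul_left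
  · have hb := mul_le_mul_of_nonneg_right (c_bound x) (sq_nonneg (φ x))
    have hw1 : (s x + 1 / 100)⁻¹ * (s x + 1 / 100) = 1 := inv_mul_cancel₀ (hne x)
    set w := (s x + 1 / 100)⁻¹
    have hsx : s x = x 0 ^ 2 + x 1 ^ 2 + x 2 ^ 2 := by simp [s, Fin.sum_univ_three]
    simp only [gsq, Fin.sum_univ_three]
    have key : 3 * w - 3 * w ^ 2 * s x = 3 / 100 * w ^ 2 := by linear_combination (-3 * w) * hw1
    rw [hsx] at key
    have k2 : φ x ^ 2 * (3 * w - 3 * w ^ 2 * (x 0 ^ 2 + x 1 ^ 2 + x 2 ^ 2))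
        = φ x ^ 2 * (3 / 100 * w ^ 2) := by rw [key]
    nlinarith [sq_nonneg (pd 0 φ x + φ x * w * x 0), sq_nonneg (pd 1 φ x + φ x * w * x 1),
      sq_nonneg (pd 2 φ x + φ x * w * x 2)]

theorem result : ∃ (c μ h u₀ u : E → ℝ) (lam : ℝ), Continuous c ∧ Continuous μ ∧ Continuous h ∧
    (∀ x, 0 ≤ c x) ∧ (∃ μ₁ μ₂, 0 < μ₁ ∧ ∀ x ∈ Ω, μ₁ ≤ μ x ∧ μ x ≤ μ₂) ∧
    Sol c μ h 0 u₀ ∧ (∀ x ∈ Ω, 0 ≤ u₀ x) ∧ (∃ x ∈ Ω, 0 < c x * u₀ x) ∧
    0 < lam ∧ (∃ t, lam < t ∧ FirstEigGE c t) ∧ Sol c μ h lam u ∧ ∀ x ∈ Ω, u x < 0 := by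
  have hs := cont_s
  have hμ := cont_μ
  refine ⟨c, μ, h, fun y => 2 * (1 - s y), fun y => -1 * (1 - s y), 1, cont_c, cont_μ,
    by unfold h; fun_prop, c_nonneg, ⟨3 / 2, 150, by norm_num, fun x hx => ⟨?_, ?_⟩⟩,
    ⟨contDiff_const.mul (contDiff_const.sub s_smooth), fun x hx => by simp [hx], fun x _ => ?_⟩,
    fun x hx => ?_, ⟨0, by simp [Ω, s], by simp [c, s]⟩, one_pos, ⟨2, by norm_num, eig⟩,
    ⟨contDiff_const.mul (contDiff_const.sub s_smooth), fun x hx => by simp [hx], fun x hx => ?_⟩,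
    fun x hx => ?_⟩
  · have : max (s x) (1 / 100) ≤ 1 := max_le (le_of_lt hx) (by norm_num)
    rw [μ, le_div_iff₀ (by positivity)]; linarith
  · rw [μ, div_le_iff₀ (by positivity)]; linarith [le_max_right (s x) (1 / 100)]
  · rw [lap_lin, gsq_lin, h]; ring
  · have : s x < 1 := hx
    linarith
  · rw [lap_lin, gsq_lin, h, c, μ]
    rcases le_total (s x) (1 / 100) with h | h
    · rw [min_eq_left h, max_eq_right h, max_eq_left (by linarith)]
      have : 1 - s x ≠ 0 := by linarith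
      field_simp; ring
    · rw [max_eq_left h, max_eq_right (by linarith)]
      have : s x ≠ 0 := by linarith
      field_simp; ring
  · have : s x < 1 := hx
    linarith

end Pool.Agent.Results.MP_ac8703_an.No
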